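import Pool.Agent.Work.MP_39d092_co.PB.Final

/-!
# MP_39d092_co: the nonlinearity near an arbitrary power function

Let `K` be a field with `2^n` elements, `G(x) = x^d` on `K` and let the graph of
`F : F_2^n → F_2^n` be carried by an affine bijection to a subset of `K × K` with at most `k` points
off the graph of `G`. Then `nl(F) ≤ nl(G) + δ/2 + k (2^n + 1 - 2 nl(G)) / (2^n - 1)`, where `δ = 0`
if the transformed graph contains `(0, 0)` and `δ = 1` in any case. In particular, if `n` is even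
and `nl(G) ≤ 2^(n-1) - 2^(n/2)`, no `F` with `(δ+1) k (2^(n/2+1) + 1) < 2^n - 1` beats
`2^(n-1) - 2^(n/2)`; this covers the inverse function `x^(2^n-2)`.

Method: the Walsh coefficient of `G` at `(u, v)` does not change on the orbit of
`(u(l .), v(l^d .))`, `l ≠ 0`. The average over an orbit of the change of the Walsh
coefficient is a sum over the changed points of averages of characters, and the average of a
character over the orbit is again given by a Walsh coefficient of `G`, hence it is small.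
-/

set_option autoImplicit false

namespace Pool.Agent.Results.MP_39d092_co.PowerBall
open Pool.MP_39d092_co.PB

theorem result (n d : ℕ) (hn : 0 < n) (hd : 0 < d) (K : Type) [Field K] [Fintype K]
    (hK : Fintype.card K = 2 ^ n)
    (h : Nat.Coprime d (2 ^ n - 1) ∨ ∃ v : K →+ ZMod 2, v ≠ 0 ∧
      ∃ (u : K →+ ZMod 2) (c : ZMod 2), (u ≠ 0 ∨ c = 0) ∧
        dst (fun x : K => x ^ d) v u c = nl (fun x : K => x ^ d))
    (L : ((Fin n → ZMod 2) × (Fin n → ZMod 2)) ≃+ K × K) (a b : K)
    (F : (Fin n → ZMod 2) → (Fin n → ZMod 2)) (k δ : ℕ)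
    (hk : Nat.card {x : Fin n → ZMod 2 //
      (L (x, F x)).2 + b ≠ ((L (x, F x)).1 + a) ^ d} ≤ k)
    (hδ : δ = 1 ∨ δ = 0 ∧ ∃ x, (L (x, F x)).1 + a = 0 ∧ (L (x, F x)).2 + b = 0) :
    ((nl F : ℝ) ≤ nl (fun x : K => x ^ d) + δ / 2
      + k * (2 ^ n + 1 - 2 * nl (fun x : K => x ^ d)) / (2 ^ n - 1)) ∧
    (Even n → nl (fun x : K => x ^ d) ≤ 2 ^ (n - 1) - 2 ^ (n / 2) →
      (δ + 1) * k * (2 ^ (n / 2 + 1) + 1) < 2 ^ n - 1 →
      nl F ≤ 2 ^ (n - 1) - 2 ^ (n / 2)) :=
  final n d hn hd K hK h L a b F k δ hk hδ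

end Pool.Agent.Results.MP_39d092_co.PowerBall
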